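import Pool.Agent.N453.ZS.Main
import Pool.Agent.N453.ZS.Tor

/-!
Zero in the spectrum for closed aspherical manifolds `M` of dimension `n ≤ 3`, and for those of any
dimension `n` whose fundamental group has a polycyclic subgroup of Hirsch length at least `n - 2`.

`X : FinRes G` (`Pool.Agent.H919R4.ZS.Defs`) is a finite free resolution of the trivial
`ℤ[G]`-module `ℤ`, for instance the cellular chain complex of the universal cover of a finite
aspherical complex with fundamental group `G`; `X.homology (toRed G) i` is the homology with
coefficients in the reduced group `C*`-algebra `C*_r(G)` and `X.cohomology k` is `H^k(G; ℤ[G])`.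
A closed aspherical manifold `M` of dimension `n` is homotopy equivalent to a finite complex, and by
Poincaré duality `H^k(G; ℤ[G]) = 0` for `k ≠ n` and `H^n(G; ℤ[G]) = ℤ`, whether or not `M` is
orientable.

The proof: let `D_i` be the subgroups of a suitable series of length `n - 2` in the polycyclic
subgroup. The long exact sequences of `0 → ℤ[G/D_i] → ℤ[G/D_i] → ℤ[G/D_(i+1)] → 0` show that
`H^(n-i)(G; ℤ[G/D_i])` is infinite cyclic and that the groups below it vanish, so
`H^2(G; ℤ[G/D]) ≠ 0` for an amenable subgroup `D`.
-/

set_option autoImplicit false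

namespace Pool.Agent.Results.MP_48737f_gt.PolycyclicCodimensionTwo

open Pool.Agent.H919R4.ZS (FinRes toRed)
open Pool.Agent.N453.ZS (PolyZ)

/-- Let `X` be a finite free resolution of `ℤ` over `ℤ[G]` such that `H^k(G; ℤ[G]) = 0` for `k < n`
and `H^n(G; ℤ[G]) ≅ ℤ` (`G` is the fundamental group of a closed aspherical `n`-manifold, or a
Poincaré duality group of dimension `n`). If `n ≤ 3`, or if `G` has a poly-(infinite cyclic)
subgroup `P` of Hirsch length `h ≥ n - 2`, then the homology of `X` with coefficients in `C*_r(G)`
does not vanish in some degree `i ≤ 2`.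

(Every polycyclic, or virtually polycyclic, group has a poly-(infinite cyclic) subgroup of the same
Hirsch length. For `n = 4` the condition says that `G` contains `ℤ²` or the fundamental group of
the Klein bottle, which contains `ℤ²`.) -/
theorem result (G : Type) [Group G] (X : FinRes G) (n : ℕ)
    (h0 : ∀ k < n, Subsingleton (X.cohomology k)) (h1 : Nonempty (X.cohomology n ≃+ ℤ))
    (hn : n ≤ 3 ∨ ∃ (P : Subgroup G) (h : ℕ), PolyZ P h ∧ n ≤ h + 2) :
    ∃ i ≤ 2, Nontrivial (X.homology (toRed G) i) := by
  rcases hn with hn | ⟨P, h, hP, hn⟩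
  · rcases Nat.lt_or_ge n 3 with h2 | h2
    · exact Pool.Agent.N453.ZS.main X n h0 h1 ⊥ 0 PolyZ.bot (by omega)
    · rcases subsingleton_or_nontrivial G with hG | hG
      · exact Pool.Agent.N453.ZS.finite_case X (D := ⊥) Pool.Agent.N453.ZS.amenable_bot inferInstance
      · obtain ⟨g, hg⟩ := exists_ne (1 : G)
        refine Pool.Agent.N453.ZS.main X n h0 h1 _ 1 (PolyZ.step g PolyZ.bot ?_ ?_) (by omega)
        · exact (Subgroup.mem_normalizer_iff).2 fun h => by
            rw [Subgroup.mem_bot, Subgroup.mem_bot]
            constructor
            · rintro rfl; simp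
            · intro h3
              rw [mul_inv_eq_one] at h3
              exact mul_eq_left.1 h3
        · intro m hm
          exact Pool.Agent.N453.ZS.zpow_ne_one X hg m (Subgroup.mem_bot.1 hm)
  · exact Pool.Agent.N453.ZS.main X n h0 h1 P h hP hn

end Pool.Agent.Results.MP_48737f_gt.PolycyclicCodimensionTwo
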